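import Mathlib

/-!
# Definitions for MP_d3af15_an

Quasi-linear maps, triviality, singularity and compatibility of pairs, exactly as in the problem
file. They are stated for a real normed space `E` and used below for `E = l_2`.
-/

namespace Pool.Agent.Work.MP_d3af15_an

section

variable {E : Type} [NormedAddCommGroup E] [NormedSpace ℝ E]

/-- `Φ : E → E` is a quasi-linear map: homogeneous, and
`‖Φ (x + y) - Φ x - Φ y‖ ≤ Q (‖x‖ + ‖y‖)` for some constant `Q`. -/
def QuasiLinear (Φ : E → E) : Prop :=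
  (∀ (c : ℝ) (x : E), Φ (c • x) = c • Φ x) ∧
    ∃ Q : ℝ, ∀ x y : E, ‖Φ (x + y) - Φ x - Φ y‖ ≤ Q * (‖x‖ + ‖y‖)

/-- `Φ` is trivial on the subspace `W`: there are a linear (not necessarily continuous) map
`L : W → E` and a constant `C` with `‖Φ w - L w‖ ≤ C ‖w‖` for all `w ∈ W`. -/
def TrivialOn (W : Submodule ℝ E) (Φ : E → E) : Prop :=
  ∃ (L : W →ₗ[ℝ] E) (C : ℝ), ∀ w : W, ‖Φ w - L w‖ ≤ C * ‖w‖

/-- `Φ` is singular: its restriction to every infinite-dimensional closed subspace is not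
trivial. -/
def Singular (Φ : E → E) : Prop :=
  ∀ W : Submodule ℝ E, IsClosed (W : Set E) → ¬ FiniteDimensional ℝ W → ¬ TrivialOn W Φ

/-- The pair `(T, U)` of bounded operators is compatible with `Φ`: the map `Φ U - T Φ` is
trivial on `E`. -/
def Compatible (Φ : E → E) (T U : E →L[ℝ] E) : Prop :=
  TrivialOn ⊤ (fun x => Φ (U x) - T (Φ x))

/-- There are bounded operators `T, U` such that `(T, U)` is compatible with `Φ` and
`T - U` is not compact; moreover `T - U` is invertible. -/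
def HasNonCompactDifference (Φ : E → E) : Prop :=
  ∃ T U : E →L[ℝ] E, Compatible Φ T U ∧ IsUnit (T - U) ∧ ¬ IsCompactOperator (T - U)

end

/-- Real `l_2`. -/
abbrev H : Type := lp (fun _ : ℕ => ℝ) 2

/-- On finitely supported vectors `Φ` is the Kalton-Peck map `x ↦ ∑ x_n log(‖x‖/|x_n|) e_n`
followed by the diagonal operator `diag(1,2,1,2,...)`. (A term with `x_n = 0` is `0`.) -/
def IsTwistedKaltonPeck (Φ : H → H) : Prop :=
  ∀ x : H, {n | x n ≠ 0}.Finite →
    ∀ n, Φ x n = (if Even n then 1 else 2) * (x n * Real.log (‖x‖ / |x n|))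

/-- `Φ` is a centralizer on finitely supported vectors: there is `C` such that
`‖Φ (a x) - a Φ x‖ ≤ C ‖a‖_∞ ‖x‖` for every bounded sequence `a` and every finitely supported
`x` (here `y = a x` and `z = a Φ x` are coordinatewise products). -/
def IsCentralizer (Φ : H → H) : Prop :=
  ∃ C : ℝ, ∀ (a : ℕ → ℝ) (M : ℝ), (∀ n, |a n| ≤ M) → ∀ x y z : H, {n | x n ≠ 0}.Finite →
    (∀ n, y n = a n * x n) → (∀ n, z n = a n * Φ x n) → ‖Φ y - z‖ ≤ C * M * ‖x‖

end Pool.Agent.Work.MP_d3af15_an
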