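import Mathlib
import Pool.Agent.Work.MP_d3af15_an.Defs

namespace Pool.Agent.Work.MP_d3af15_an

open Real Finset

/-! ### Elementary inequality -/

lemma abs_mul_log_le {t : ℝ} (h0 : 0 ≤ t) (h1 : t ≤ 1) : |t * log t| ≤ 1 := by
  rcases h0.eq_or_lt with h | h
  · simp [← h]
  · have := Real.abs_log_mul_self_lt t h h1
    rw [mul_comm]; exact this.le

/-- `|a| * |log (a / M)| ≤ M` for `0 ≤ a ≤ M`. -/
lemma mul_abs_log_div_le {a M : ℝ} (h0 : 0 ≤ a) (h1 : a ≤ M) : a * |log (a / M)| ≤ M := by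
  rcases h0.eq_or_lt with h | h
  · rw [← h]; simpa using h0.trans h1
  · have hM : 0 < M := h.trans_le h1
    have h2 : |a / M * log (a / M)| ≤ 1 :=
      abs_mul_log_le (by positivity) (by rw [div_le_one hM]; exact h1)
    rw [abs_mul, abs_of_nonneg (by positivity : 0 ≤ a / M)] at h2
    have h3 : a * |log (a / M)| = M * (a / M * |log (a / M)|) := by
      field_simp
    rw [h3]
    calc M * (a / M * |log (a / M)|) ≤ M * 1 := by gcongr
      _ = M := mul_one M

/-! ### The formal Kalton-Peck map -/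

/-- The formal Kalton-Peck map with values in all real sequences. -/
noncomputable def kp (x : H) : ℕ → ℝ := fun n => x n * log (‖x‖ / |x n|)

lemma kp_eq (x : H) (n : ℕ) : kp x n = x n * log ‖x‖ - x n * log |x n| := by
  unfold kp
  by_cases hx : x n = 0
  · simp [hx]
  · have h1 : |x n| ≠ 0 := by simpa using hx
    have h2 : ‖x‖ ≠ 0 := by
      intro h
      rw [norm_eq_zero] at h
      exact hx (by rw [h]; rfl)
    rw [log_div h2 h1]; ring

lemma kp_smul (c : ℝ) (x : H) : kp (c • x) = c • kp x := by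
  funext n
  by_cases hc : c = 0
  · simp [kp, hc]
  · have hc' : |c| ≠ 0 := by simpa using hc
    simp only [kp, Pi.smul_apply, smul_eq_mul, lp.coeFn_smul, norm_smul, abs_mul,
      Real.norm_eq_abs]
    rw [mul_div_mul_left _ _ hc', mul_assoc]

/-- Existence of an `l_2` vector from a pointwise bound. -/
lemma exists_lp_of_le (v : ℕ → ℝ) (y : H) (h : ∀ n, |v n| ≤ |y n|) :
    ∃ z : H, (∀ n, z n = v n) ∧ ‖z‖ ≤ ‖y‖ := by
  have hm : Memℓp v 2 := by
    refine memℓp_gen ?_
    have hy := (lp.memℓp y).summable (by norm_num)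
    refine Summable.of_nonneg_of_le (fun n => by positivity) (fun n => ?_) hy
    have := h n
    rw [← Real.norm_eq_abs, ← Real.norm_eq_abs] at this
    gcongr
  refine ⟨⟨v, hm⟩, fun n => rfl, ?_⟩
  have h2 : (0:ℝ) < (2:ENNReal).toReal := by norm_num
  refine lp.norm_le_of_forall_sum_le h2 (norm_nonneg _) (fun s => ?_)
  refine le_trans ?_ (lp.sum_rpow_le_norm_rpow h2 y s)
  refine Finset.sum_le_sum (fun n _ => ?_)
  have := h n
  rw [← Real.norm_eq_abs, ← Real.norm_eq_abs] at this
  have e : ‖(⟨v, hm⟩ : H) n‖ = ‖v n‖ := rfl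
  rw [e]
  gcongr

/-- The vector of absolute values. -/
lemma exists_abs (x : H) : ∃ z : H, (∀ n, z n = |x n|) ∧ ‖z‖ ≤ ‖x‖ :=
  exists_lp_of_le _ x (fun n => by simp)

lemma phi_bound (s t : ℝ) :
    abs ((s + t) * log (abs (s + t)) - s * log (abs s) - t * log (abs t)) ≤
      3 * (abs s + abs t) := by
  set M := |s| + |t| with hM
  by_cases h0 : M = 0
  · have hs : s = 0 := by
      have := abs_nonneg s; have := abs_nonneg t
      have : |s| = 0 := by linarith
      simpa using this
    have ht : t = 0 := by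
      have := abs_nonneg s; have := abs_nonneg t
      have : |t| = 0 := by linarith
      simpa using this
    simp [hs, ht, h0]
  · have hMpos : 0 < M := lt_of_le_of_ne (by positivity) (Ne.symm h0)
    have key : ∀ u : ℝ, |u| ≤ M → abs (u * log (abs u) - u * log M) ≤ M := by
      intro u hu
      by_cases hu0 : u = 0
      · simp [hu0, hMpos.le]
      · have : |u| ≠ 0 := by simpa using hu0
        rw [← mul_sub, ← log_div this h0, abs_mul]
        exact mul_abs_log_div_le (abs_nonneg _) hu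
    have e : (s + t) * log (abs (s + t)) - s * log (abs s) - t * log (abs t) =
        ((s + t) * log (abs (s + t)) - (s + t) * log M) - (s * log (abs s) - s * log M)
          - (t * log (abs t) - t * log M) := by ring
    rw [e]
    have h1 := key (s + t) (abs_add_le s t)
    have h2 := key s (by rw [hM]; linarith [abs_nonneg t])
    have h3 := key t (by rw [hM]; linarith [abs_nonneg s])
    calc _ ≤ abs ((s + t) * log (abs (s + t)) - (s + t) * log M)
          + abs (s * log (abs s) - s * log M)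
          + abs (t * log (abs t) - t * log M) := by
            refine (abs_sub _ _).trans ?_
            gcongr
            exact abs_sub _ _
      _ ≤ 3 * M := by linarith

/-- The formal Kalton-Peck map is quasi-linear, with all deviations in `l_2`. -/
lemma kp_add (x y : H) : ∃ z : H, (∀ n, z n = kp (x + y) n - kp x n - kp y n) ∧
    ‖z‖ ≤ 6 * (‖x‖ + ‖y‖) := by
  obtain ⟨ax, hax, haxn⟩ := exists_abs x
  obtain ⟨ay, hay, hayn⟩ := exists_abs y
  by_cases hN00 : ‖x‖ + ‖y‖ = 0
  · have hx0 : ‖x‖ = 0 := by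
      have := norm_nonneg x; have := norm_nonneg y; linarith
    have hy0 : ‖y‖ = 0 := by
      have := norm_nonneg x; have := norm_nonneg y; linarith
    rw [norm_eq_zero] at hx0 hy0
    refine ⟨0, fun n => ?_, ?_⟩
    · simp [kp, hx0, hy0]
    · simp [hx0, hy0]
  set N := ‖x‖ + ‖y‖ with hN
  obtain ⟨r, hr, hrn⟩ := exists_lp_of_le
    (fun n => (x n + y n) * log |x n + y n| - x n * log |x n| - y n * log |y n|)
    ((3 : ℝ) • (ax + ay)) (fun n => by
      have h1 : ((3 : ℝ) • (ax + ay) : H) n = 3 * (|x n| + |y n|) := by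
        simp only [lp.coeFn_smul, lp.coeFn_add, Pi.smul_apply, Pi.add_apply, smul_eq_mul, hax, hay]
      rw [h1, abs_of_nonneg (a := 3 * (|x n| + |y n|)) (by positivity)]
      exact phi_bound _ _)
  have hrn' : ‖r‖ ≤ 3 * N := by
    refine hrn.trans ?_
    rw [norm_smul]
    simp only [Real.norm_ofNat]
    gcongr
    exact (norm_add_le _ _).trans (by rw [hN]; gcongr)
  have key : ∀ u : H, ‖u‖ ≤ N → ‖(log (‖u‖ / N)) • u‖ ≤ N := by
    intro u hu
    rw [norm_smul, mul_comm]
    exact mul_abs_log_div_le (norm_nonneg _) hu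
  refine ⟨(log (‖x + y‖ / N)) • (x + y) - (log (‖x‖ / N)) • x - (log (‖y‖ / N)) • y - r, ?_, ?_⟩
  · intro n
    have logdiv : ∀ u : H, log (‖u‖ / N) * u n = log ‖u‖ * u n - log N * u n := by
      intro u
      by_cases hu : u n = 0
      · simp [hu]
      · have h2 : ‖u‖ ≠ 0 := by
          intro h
          rw [norm_eq_zero] at h
          exact hu (by rw [h]; rfl)
        rw [log_div h2 hN00]; ring
    have e : ((log (‖x + y‖ / N)) • (x + y) - (log (‖x‖ / N)) • x - (log (‖y‖ / N)) • y - r : H) n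
        = log (‖x + y‖ / N) * (x + y) n - log (‖x‖ / N) * x n - log (‖y‖ / N) * y n - r n := by
      simp only [lp.coeFn_sub, lp.coeFn_smul, Pi.sub_apply, Pi.smul_apply, smul_eq_mul]
    rw [e, logdiv, logdiv, logdiv, kp_eq, kp_eq, kp_eq, hr]
    simp only [lp.coeFn_add, Pi.add_apply]
    ring
  · calc _ ≤ ‖(log (‖x + y‖ / N)) • (x + y)‖ + ‖(log (‖x‖ / N)) • x‖ + ‖(log (‖y‖ / N)) • y‖
          + ‖r‖ := by
            refine (norm_sub_le _ _).trans ?_
            gcongr
            refine (norm_sub_le _ _).trans ?_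
            gcongr
            exact norm_sub_le _ _
      _ ≤ N + N + N + 3 * N := by
            gcongr
            · exact key _ (norm_add_le _ _)
            · exact key _ (by rw [hN]; linarith [norm_nonneg y])
            · exact key _ (by rw [hN]; linarith [norm_nonneg x])
      _ = 6 * N := by ring

/-! ### The linear left inverse and the Kalton-Peck map on all of `l_2` -/

/-- The inclusion of `l_2` in the space of all sequences. -/
noncomputable def incl : H →ₗ[ℝ] (ℕ → ℝ) where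
  toFun x := fun n => x n
  map_add' x y := by funext n; simp
  map_smul' c x := by funext n; simp

lemma exists_pi : ∃ P : (ℕ → ℝ) →ₗ[ℝ] H, ∀ x : H, P (fun n => x n) = x := by
  have hker : LinearMap.ker incl = ⊥ := by
    rw [LinearMap.ker_eq_bot]
    intro x y h
    exact lp.ext h
  obtain ⟨g, hg⟩ := LinearMap.exists_leftInverse_of_injective incl hker
  exact ⟨g, fun x => LinearMap.congr_fun hg x⟩

lemma P_of_eq {P : (ℕ → ℝ) →ₗ[ℝ] H} (hP : ∀ x : H, P (fun n => x n) = x) {v : ℕ → ℝ} {z : H}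
    (h : ∀ n, z n = v n) : P v = z := by
  have : v = fun n => z n := by funext n; exact (h n).symm
  rw [this, hP]

/-- Quasi-linearity of `P ∘ kp`. -/
lemma quasi_P {P : (ℕ → ℝ) →ₗ[ℝ] H} (hP : ∀ x : H, P (fun n => x n) = x) (x y : H) :
    ‖P (kp (x + y)) - P (kp x) - P (kp y)‖ ≤ 6 * (‖x‖ + ‖y‖) := by
  obtain ⟨z, hz, hzn⟩ := kp_add x y
  rw [← map_sub, ← map_sub]
  rw [P_of_eq hP (v := kp (x + y) - kp x - kp y) (z := z) (fun n => by simp [hz])]
  exact hzn

/-! ### Choice of signs -/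

lemma exists_signs (z : ℕ → H) (N : ℕ) : ∃ e : ℕ → ℝ, (∀ n, e n = 1 ∨ e n = -1) ∧
    ‖∑ n ∈ range N, e n • z n‖ ^ 2 ≤ ∑ n ∈ range N, ‖z n‖ ^ 2 := by
  induction N with
  | zero => exact ⟨fun _ => 1, fun _ => Or.inl rfl, by simp⟩
  | succ N ih =>
    obtain ⟨e, he, hle⟩ := ih
    set S := ∑ n ∈ range N, e n • z n with hS
    obtain ⟨s, hs, hin⟩ : ∃ s : ℝ, (s = 1 ∨ s = -1) ∧ inner ℝ S (s • z N) ≤ 0 := by
      rcases le_total (inner ℝ S (z N)) 0 with h | h
      · exact ⟨1, Or.inl rfl, by simpa using h⟩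
      · exact ⟨-1, Or.inr rfl, by simpa using h⟩
    refine ⟨Function.update e N s, fun n => ?_, ?_⟩
    · by_cases hn : n = N
      · subst hn; simpa using hs
      · simpa [Function.update_of_ne hn] using he n
    · rw [sum_range_succ, sum_range_succ]
      have e1 : ∑ n ∈ range N, Function.update e N s n • z n = S := by
        rw [hS]
        refine sum_congr rfl (fun n hn => ?_)
        rw [Function.update_of_ne (by have := mem_range.1 hn; omega)]
      rw [e1, Function.update_self, norm_add_sq_real]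
      have h2 : ‖s • z N‖ = ‖z N‖ := by
        rw [norm_smul]; rcases hs with h | h <;> simp [h]
      rw [h2]
      nlinarith

/-! ### Disjoint normalised vectors -/

lemma norm_sq_sum_disjoint (u : ℕ → H) (hu : ∀ n, ‖u n‖ = 1)
    (hd : ∀ i n k, n ≠ k → u n i = 0 ∨ u k i = 0) (e : ℕ → ℝ) (he : ∀ n, e n = 1 ∨ e n = -1)
    (N : ℕ) : ‖∑ n ∈ range N, e n • u n‖ ^ 2 = N := by
  have horth : ∀ n k, n ≠ k → inner ℝ (u n) (u k) = 0 := by
    intro n k hnk
    rw [lp.inner_eq_tsum]
    have : (fun i => inner ℝ (u n i) (u k i)) = fun _ => (0 : ℝ) := by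
      funext i
      rcases hd i n k hnk with h | h <;> simp [h]
    rw [this, tsum_zero]
  induction N with
  | zero => simp
  | succ N ih =>
    rw [sum_range_succ, norm_add_sq_real, ih]
    have h0 : inner ℝ (∑ n ∈ range N, e n • u n) (e N • u N) = 0 := by
      rw [sum_inner]
      refine sum_eq_zero (fun n hn => ?_)
      rw [inner_smul_left, inner_smul_right,
        horth n N (by have := mem_range.1 hn; omega)]
      simp
    have h1 : ‖e N • u N‖ = 1 := by
      rw [norm_smul, hu]; rcases he N with h | h <;> simp [h]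
    rw [h0, h1]; push_cast; ring

lemma kp_sum_disjoint (u : ℕ → H) (hu : ∀ n, ‖u n‖ = 1)
    (hd : ∀ i n k, n ≠ k → u n i = 0 ∨ u k i = 0) (e : ℕ → ℝ) (he : ∀ n, e n = 1 ∨ e n = -1)
    (N : ℕ) (hN : 0 < N) : kp (∑ n ∈ range N, e n • u n) =
      (log (√N)) • (fun i => (∑ n ∈ range N, e n • u n : H) i)
        + ∑ n ∈ range N, e n • kp (u n) := by
  have hnorm : ‖∑ n ∈ range N, e n • u n‖ = √N := by
    rw [← norm_sq_sum_disjoint u hu hd e he N, Real.sqrt_sq (norm_nonneg _)]
  funext i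
  have hsum : (∑ n ∈ range N, e n • u n : H) i = ∑ n ∈ range N, e n * u n i := by
    rw [lp.coeFn_sum]; simp
  simp only [kp, hnorm, Pi.add_apply, Pi.smul_apply, smul_eq_mul, Finset.sum_apply, hu]
  rw [hsum]
  by_cases hall : ∀ n ∈ range N, u n i = 0
  · have h1 : ∑ n ∈ range N, e n * u n i = 0 := sum_eq_zero (fun n hn => by rw [hall n hn]; simp)
    have h2 : ∑ n ∈ range N, e n * (u n i * log (1 / |u n i|)) = 0 :=
      sum_eq_zero (fun n hn => by rw [hall n hn]; simp)
    rw [h1, h2]; simp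
  · push Not at hall
    obtain ⟨n0, hn0, hne⟩ := hall
    have hz : ∀ n, n ≠ n0 → u n i = 0 := by
      intro n hn
      rcases hd i n n0 hn with h | h
      · exact h
      · exact absurd h hne
    have h1 : ∑ n ∈ range N, e n * u n i = e n0 * u n0 i := by
      refine sum_eq_single n0 (fun n _ hn => by rw [hz n hn]; simp) (fun h => absurd hn0 h)
    have h2 : ∑ n ∈ range N, e n * (u n i * log (1 / |u n i|)) =
        e n0 * (u n0 i * log (1 / |u n0 i|)) := by
      refine sum_eq_single n0 (fun n _ hn => by rw [hz n hn]; simp) (fun h => absurd hn0 h)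
    rw [h1, h2]
    have habs : |e n0 * u n0 i| = |u n0 i| := by
      rw [abs_mul]; rcases he n0 with h | h <;> simp [h]
    have hne' : |u n0 i| ≠ 0 := by simpa using hne
    have hsq : √(N:ℝ) ≠ 0 := by positivity
    rw [habs, log_div hsq hne', log_div one_ne_zero hne', log_one]
    ring

/-! ### The gliding hump -/

lemma hump (W : Submodule ℝ H) (hW : ¬ FiniteDimensional ℝ W) (δ : ℝ) (hδ : 0 < δ) (m : ℕ) :
    ∃ w ∈ W, ∃ u : H, ∃ m' : ℕ, m ≤ m' ∧ ‖u‖ = 1 ∧ ‖w - u‖ ≤ δ ∧ (∀ i < m, u i = 0) ∧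
      (∀ i, m' ≤ i → u i = 0) := by
  -- a nonzero vector of `W` vanishing on the first `m` coordinates
  obtain ⟨w, hwW, hw0, hwm⟩ : ∃ w ∈ W, w ≠ 0 ∧ ∀ i < m, w i = 0 := by
    by_contra hcon
    push Not at hcon
    apply hW
    let f : W →ₗ[ℝ] (Fin m → ℝ) :=
      { toFun := fun w i => (w : H) i
        map_add' := fun x y => by funext i; simp
        map_smul' := fun c x => by funext i; simp }
    have hf : Function.Injective f := by
      rw [← LinearMap.ker_eq_bot, LinearMap.ker_eq_bot']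
      intro w hw
      by_contra hne
      obtain ⟨i, hi, hwi⟩ := hcon w w.2 (by simpa using hne)
      exact hwi (congrFun hw ⟨i, hi⟩)
    exact FiniteDimensional.of_injective f hf
  -- truncations
  set t : ℕ → H := fun k => ∑ i ∈ range k, lp.single 2 i (w i) with ht
  have htend : Filter.Tendsto t Filter.atTop (nhds w) := by
    have := lp.hasSum_single (p := 2) (by norm_num) w
    exact this.tendsto_sum_nat
  have htapply : ∀ k j, t k j = if j < k then w j else 0 := by
    intro k j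
    simp only [ht]
    rw [lp.coeFn_sum, Finset.sum_apply]
    by_cases hj : j < k
    · rw [if_pos hj, sum_eq_single j]
      · simp
      · intro b _ hb
        rw [lp.single_apply_ne _ _ _ (Ne.symm hb)]
      · intro h; exact absurd (mem_range.2 hj) h
    · rw [if_neg hj]
      refine sum_eq_zero (fun b hb => ?_)
      rw [lp.single_apply_ne]
      have := mem_range.1 hb
      omega
  have hwn : 0 < ‖w‖ := by simpa using hw0
  have h1 : Filter.Tendsto (fun k => ‖w - t k‖) Filter.atTop (nhds 0) := by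
    have := (tendsto_const_nhds (x := w)).sub htend
    simpa using this.norm
  have h2 : Filter.Tendsto (fun k => δ * ‖t k‖) Filter.atTop (nhds (δ * ‖w‖)) :=
    htend.norm.const_mul δ
  have h3 : ∀ᶠ k in Filter.atTop, ‖w - t k‖ < δ * ‖t k‖ :=
    h1.eventually_lt h2 (by positivity)
  obtain ⟨k, hk, hkm⟩ := (h3.and (Filter.eventually_ge_atTop m)).exists
  have htk : 0 < ‖t k‖ := by
    by_contra hcon
    have : ‖t k‖ = 0 := le_antisymm (not_lt.1 hcon) (norm_nonneg _)
    rw [this, mul_zero] at hk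
    exact absurd hk (not_lt.2 (norm_nonneg _))
  refine ⟨(‖t k‖)⁻¹ • w, W.smul_mem _ hwW, (‖t k‖)⁻¹ • t k, k, hkm, ?_, ?_, ?_, ?_⟩
  · rw [norm_smul, norm_inv, norm_norm, inv_mul_cancel₀ htk.ne']
  · rw [← smul_sub, norm_smul, norm_inv, norm_norm, inv_mul_le_iff₀ htk, mul_comm]
    exact hk.le
  · intro i hi
    have := htapply k i
    simp only [lp.coeFn_smul, Pi.smul_apply, smul_eq_mul, this]
    split_ifs
    · rw [hwm i hi, mul_zero]
    · simp
  · intro i hi
    have := htapply k i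
    rw [if_neg (not_lt.2 hi)] at this
    simp only [lp.coeFn_smul, Pi.smul_apply, smul_eq_mul, this, mul_zero]

lemma hump_seq (W : Submodule ℝ H) (hW : ¬ FiniteDimensional ℝ W) (δ : ℝ) (hδ : 0 < δ) :
    ∃ w u : ℕ → H, (∀ n, w n ∈ W) ∧ (∀ n, ‖u n‖ = 1) ∧ (∀ n, ‖w n - u n‖ ≤ δ) ∧
      (∀ i n k, n ≠ k → u n i = 0 ∨ u k i = 0) := by
  choose w hw u m' hm hu hwu hlo hhi using hump W hW δ hδ
  let M : ℕ → ℕ := fun n => Nat.rec (motive := fun _ => ℕ) 0 (fun _ m => m' m) n
  have hM : ∀ n, M (n + 1) = m' (M n) := fun n => rfl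
  have hmono : Monotone M := monotone_nat_of_le_succ (fun n => by rw [hM]; exact hm _)
  have key : ∀ i n k, n < k → u (M n) i = 0 ∨ u (M k) i = 0 := by
    intro i n k hnk
    rcases lt_or_ge i (M k) with hi | hi
    · right; exact hlo _ i hi
    · left
      refine hhi _ i ?_
      rw [← hM]
      exact (hmono (Nat.succ_le_of_lt hnk)).trans hi
  refine ⟨fun n => w (M n), fun n => u (M n), fun n => hw _, fun n => hu _, fun n => hwu _, ?_⟩
  intro i n k hnk
  rcases lt_or_gt_of_ne hnk with h | h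
  · exact key i n k h
  · exact (key i k n h).symm

/-- Iterated quasi-linearity. -/
lemma quasi_sum {Φ : H → H} {Q : ℝ} (hQ0 : 0 ≤ Q) (h0 : Φ 0 = 0)
    (hQ : ∀ x y : H, ‖Φ (x + y) - Φ x - Φ y‖ ≤ Q * (‖x‖ + ‖y‖)) (v : ℕ → H) (N : ℕ) :
    ‖Φ (∑ n ∈ range N, v n) - ∑ n ∈ range N, Φ (v n)‖ ≤ N * (Q * ∑ n ∈ range N, ‖v n‖) := by
  induction N with
  | zero => simp [h0]
  | succ N ih =>
    rw [sum_range_succ, sum_range_succ, sum_range_succ]
    have e : Φ (∑ n ∈ range N, v n + v N) - (∑ n ∈ range N, Φ (v n) + Φ (v N)) =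
      (Φ (∑ n ∈ range N, v n + v N) - Φ (∑ n ∈ range N, v n) - Φ (v N)) +
        (Φ (∑ n ∈ range N, v n) - ∑ n ∈ range N, Φ (v n)) := by abel
    rw [e]
    refine (norm_add_le _ _).trans ?_
    have h1 := hQ (∑ n ∈ range N, v n) (v N)
    have h2 : ‖∑ n ∈ range N, v n‖ ≤ ∑ n ∈ range N, ‖v n‖ := norm_sum_le _ _
    have h3 : 0 ≤ ‖v N‖ := norm_nonneg _
    have h4 : Q * (‖∑ n ∈ range N, v n‖ + ‖v N‖) ≤ Q * (∑ n ∈ range N, ‖v n‖ + ‖v N‖) := by
      gcongr
    have h5 : (N:ℝ) * (Q * ∑ n ∈ range N, ‖v n‖) ≤ N * (Q * (∑ n ∈ range N, ‖v n‖ + ‖v N‖)) := by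
      gcongr
      linarith
    push_cast
    nlinarith

/-- The Kalton-Peck map is singular: no restriction to an infinite-dimensional subspace is
trivial. -/
lemma singular_P {P : (ℕ → ℝ) →ₗ[ℝ] H} (hP : ∀ x : H, P (fun n => x n) = x)
    (W : Submodule ℝ H) (hW : ¬ FiniteDimensional ℝ W) (L : W →ₗ[ℝ] H) (C : ℝ)
    (hC : ∀ w : W, ‖P (kp w) - L w‖ ≤ C * ‖w‖) : False := by
  wlog hC0 : 0 ≤ C with Haux
  · exact Haux hP W hW L 0 (fun w => (hC w).trans (by
      have := norm_nonneg w; nlinarith)) le_rfl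
  set Φ : H → H := fun x => P (kp x) with hΦ
  have hQ : ∀ x y : H, ‖Φ (x + y) - Φ x - Φ y‖ ≤ 6 * (‖x‖ + ‖y‖) := quasi_P hP
  have hΦs : ∀ (c : ℝ) (x : H), Φ (c • x) = c • Φ x := by
    intro c x; simp only [hΦ]; rw [kp_smul, map_smul]
  have hΦ0 : Φ 0 = 0 := by simpa using hΦs 0 0
  -- choose N large
  obtain ⟨N, hN0, hN⟩ : ∃ N : ℕ, 0 < N ∧ 100 * (C + 1) + 100 < log (√(N:ℝ)) := by
    have h1 : Filter.Tendsto (fun n : ℕ => log (√(n:ℝ))) Filter.atTop Filter.atTop :=
      Real.tendsto_log_atTop.comp (Real.tendsto_sqrt_atTop.comp tendsto_natCast_atTop_atTop)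
    obtain ⟨N, h⟩ := ((h1.eventually_gt_atTop (100 * (C + 1) + 100)).and
      (Filter.eventually_gt_atTop 0)).exists
    exact ⟨N, h.2, h.1⟩
  have hNR : (1:ℝ) ≤ N := by exact_mod_cast hN0
  set δ : ℝ := 1 / (N:ℝ) ^ 2 with hδ
  have hδpos : 0 < δ := by positivity
  have hδ1 : δ ≤ 1 := by
    rw [hδ, div_le_one (by positivity)]
    nlinarith
  obtain ⟨w, u, hwW, hu, hwu, hd⟩ := hump_seq W hW δ hδpos
  set r : ℕ → H := fun n => w n - u n with hr
  have hrn : ∀ n, ‖r n‖ ≤ δ := hwu
  have hwn : ∀ n, ‖w n‖ ≤ 2 := by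
    intro n
    have : w n = u n + r n := by simp [hr]
    rw [this]
    refine (norm_add_le _ _).trans ?_
    rw [hu]; linarith [hrn n]
  set z : ℕ → H := fun n => L ⟨w n, hwW n⟩ - Φ (u n) - Φ (r n) with hz
  have hzn : ∀ n, ‖z n‖ ≤ 2 * C + 12 := by
    intro n
    have e : z n = (Φ (w n) - Φ (u n) - Φ (r n)) - (Φ (w n) - L ⟨w n, hwW n⟩) := by
      simp only [hz]; abel
    rw [e]
    refine (norm_sub_le _ _).trans ?_
    have h1 : ‖Φ (w n) - L ⟨w n, hwW n⟩‖ ≤ C * ‖w n‖ := hC ⟨w n, hwW n⟩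
    have h2 : ‖Φ (w n) - Φ (u n) - Φ (r n)‖ ≤ 6 * (‖u n‖ + ‖r n‖) := by
      have := hQ (u n) (r n)
      have e2 : u n + r n = w n := by simp [hr]
      rwa [e2] at this
    have h3 : C * ‖w n‖ ≤ C * 2 := by gcongr; exact hwn n
    rw [hu] at h2
    linarith [hrn n]
  obtain ⟨e, he, hle⟩ := exists_signs z N
  have hsN : √(N:ℝ) ^ 2 = N := Real.sq_sqrt (by positivity)
  have hsN1 : 1 ≤ √(N:ℝ) := by rw [Real.one_le_sqrt]; exact hNR
  have hSz : ‖∑ n ∈ range N, e n • z n‖ ≤ √N * (2 * C + 12) := by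
    have h1 : ∑ n ∈ range N, ‖z n‖ ^ 2 ≤ N * (2 * C + 12) ^ 2 := by
      calc _ ≤ ∑ n ∈ range N, (2 * C + 12) ^ 2 := by
            refine sum_le_sum (fun n _ => ?_)
            have := hzn n
            gcongr
        _ = _ := by simp
    have h2 : ‖∑ n ∈ range N, e n • z n‖ ^ 2 ≤ (√N * (2 * C + 12)) ^ 2 := by
      rw [mul_pow, hsN]; exact hle.trans h1
    exact abs_le_of_sq_le_sq' h2 (by positivity) |>.2
  have hSu : ‖∑ n ∈ range N, e n • u n‖ = √N := by
    rw [← norm_sq_sum_disjoint u hu hd e he N, Real.sqrt_sq (norm_nonneg _)]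
  have hesm : ∀ n, |e n| = 1 := by intro n; rcases he n with h | h <;> simp [h]
  have hSr : ∑ n ∈ range N, ‖e n • r n‖ ≤ δ * N := by
    calc _ ≤ ∑ n ∈ range N, δ := by
          refine sum_le_sum (fun n _ => ?_)
          rw [norm_smul, Real.norm_eq_abs, hesm, one_mul]
          exact hrn n
      _ = _ := by simp [mul_comm]
  have hδN : δ * N ≤ 1 := by
    rw [hδ]
    rw [div_mul_eq_mul_div, one_mul, div_le_one (by positivity)]
    nlinarith
  have hδN2 : N * (δ * N) = 1 := by
    rw [hδ]; field_simp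
  have hSr' : ‖∑ n ∈ range N, e n • r n‖ ≤ 1 := (norm_sum_le _ _).trans (hSr.trans hδN)
  -- the formula for Φ on the block sum
  have hA : Φ (∑ n ∈ range N, e n • u n) =
      log (√N) • (∑ n ∈ range N, e n • u n) + ∑ n ∈ range N, e n • Φ (u n) := by
    simp only [hΦ]
    rw [kp_sum_disjoint u hu hd e he N hN0, map_add, map_smul, hP, map_sum]
    simp only [map_smul]
  have hB : ‖Φ (∑ n ∈ range N, e n • r n) - ∑ n ∈ range N, e n • Φ (r n)‖ ≤ 6 := by
    have := quasi_sum (by norm_num) hΦ0 hQ (fun n => e n • r n) N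
    simp only [hΦs] at this
    refine this.trans ?_
    calc (N:ℝ) * (6 * ∑ n ∈ range N, ‖e n • r n‖) ≤ N * (6 * (δ * N)) := by gcongr
      _ = 6 * (N * (δ * N)) := by ring
      _ = 6 := by rw [hδN2]; norm_num
  have hwsum : ∑ n ∈ range N, e n • w n = ∑ n ∈ range N, e n • u n + ∑ n ∈ range N, e n • r n := by
    rw [← sum_add_distrib]
    refine sum_congr rfl (fun n _ => ?_)
    rw [← smul_add]; simp [hr]
  have hCq := hQ (∑ n ∈ range N, e n • u n) (∑ n ∈ range N, e n • r n)
  rw [← hwsum, hSu] at hCq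
  set X : W := ∑ n ∈ range N, e n • (⟨w n, hwW n⟩ : W) with hX
  have hXc : (X : H) = ∑ n ∈ range N, e n • w n := by
    rw [hX]; simp
  have hL : L X = ∑ n ∈ range N, e n • L ⟨w n, hwW n⟩ := by
    rw [hX, map_sum]; simp only [map_smul]
  have hXn : ‖X‖ ≤ √N + 1 := by
    have : ‖X‖ = ‖(X : H)‖ := rfl
    rw [this, hXc, hwsum]
    exact (norm_add_le _ _).trans (by rw [hSu]; gcongr)
  have hD := hC X
  rw [hL] at hD
  have hD' : ‖Φ (∑ n ∈ range N, e n • w n) - ∑ n ∈ range N, e n • L ⟨w n, hwW n⟩‖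
      ≤ C * (√N + 1) := by
    rw [← hXc]
    exact hD.trans (by gcongr)
  have hident : log (√N) • (∑ n ∈ range N, e n • u n) =
      (∑ n ∈ range N, e n • z n)
      + (Φ (∑ n ∈ range N, e n • w n) - ∑ n ∈ range N, e n • L ⟨w n, hwW n⟩)
      - (Φ (∑ n ∈ range N, e n • w n) - Φ (∑ n ∈ range N, e n • u n)
          - Φ (∑ n ∈ range N, e n • r n))
      - (Φ (∑ n ∈ range N, e n • r n) - ∑ n ∈ range N, e n • Φ (r n)) := by
    rw [hA]
    have hz' : ∑ n ∈ range N, e n • z n = ∑ n ∈ range N, e n • L ⟨w n, hwW n⟩ -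
        ∑ n ∈ range N, e n • Φ (u n) - ∑ n ∈ range N, e n • Φ (r n) := by
      rw [← sum_sub_distrib, ← sum_sub_distrib]
      refine sum_congr rfl (fun n _ => ?_)
      simp only [hz, smul_sub]
    rw [hz']; abel
  have hfin : log (√N) * √N ≤ √N * (2 * C + 12) + C * (√N + 1) + 6 * (√N + 1) + 6 := by
    have hlogpos : 0 ≤ log (√(N:ℝ)) := Real.log_nonneg hsN1
    calc log (√N) * √N = ‖log (√N) • (∑ n ∈ range N, e n • u n)‖ := by
          rw [norm_smul, hSu, Real.norm_eq_abs, abs_of_nonneg hlogpos]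
      _ ≤ _ := by
          rw [hident]
          refine (norm_sub_le _ _).trans ?_
          refine add_le_add ?_ hB
          refine (norm_sub_le _ _).trans ?_
          refine add_le_add ?_ ?_
          · exact (norm_add_le _ _).trans (add_le_add hSz hD')
          · exact hCq.trans (by gcongr)
  nlinarith [mul_le_mul_of_nonneg_right hN.le (Real.sqrt_nonneg (N:ℝ))]

/-! ### Weighted permutation operators -/

lemma wop_mem (m : ℕ → ℝ) (σ : ℕ → ℕ) (hσ : Function.Injective σ) (M : ℝ)
    (hM : ∀ n, |m n| ≤ M) (x : H) : Memℓp (fun n => m n * x (σ n)) 2 := by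
  refine memℓp_gen ?_
  have hx := (lp.memℓp x).summable (by norm_num)
  have h2 := (hx.comp_injective hσ).mul_left (M ^ (2:ℝ))
  refine Summable.of_nonneg_of_le (fun n => by positivity) (fun n => ?_) h2
  have hM0 : 0 ≤ M := (abs_nonneg _).trans (hM n)
  simp only [Function.comp, norm_mul, ENNReal.toReal_ofNat]
  rw [Real.mul_rpow (norm_nonneg _) (norm_nonneg _)]
  gcongr
  exact hM n

lemma wop_norm (m : ℕ → ℝ) (σ : ℕ → ℕ) (hσ : Function.Injective σ) (M : ℝ)
    (hM : ∀ n, |m n| ≤ M) (x : H) :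
    ‖(⟨fun n => m n * x (σ n), wop_mem m σ hσ M hM x⟩ : H)‖ ≤ M * ‖x‖ := by
  have hM0 : 0 ≤ M := (abs_nonneg _).trans (hM 0)
  have h2 : (0:ℝ) < (2:ENNReal).toReal := by norm_num
  refine lp.norm_le_of_forall_sum_le h2 (by positivity) (fun s => ?_)
  rw [Real.mul_rpow hM0 (norm_nonneg _)]
  have h3 := lp.sum_rpow_le_norm_rpow h2 x (s.map ⟨σ, hσ⟩)
  rw [Finset.sum_map] at h3
  calc _ = ∑ n ∈ s, ‖m n * x (σ n)‖ ^ (2:ENNReal).toReal := rfl
    _ ≤ ∑ n ∈ s, M ^ (2:ENNReal).toReal * ‖x (σ n)‖ ^ (2:ENNReal).toReal := by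
        refine Finset.sum_le_sum (fun n _ => ?_)
        rw [norm_mul, Real.mul_rpow (norm_nonneg _) (norm_nonneg _)]
        gcongr
        exact hM n
    _ = M ^ (2:ENNReal).toReal * ∑ n ∈ s, ‖x (σ n)‖ ^ (2:ENNReal).toReal := by
        rw [Finset.mul_sum]
    _ ≤ _ := by
        gcongr
        exact h3

/-- The operator `(A x)_n = m_n x_{σ n}`. -/
noncomputable def wop (m : ℕ → ℝ) (σ : ℕ → ℕ) (hσ : Function.Injective σ) (M : ℝ)
    (hM : ∀ n, |m n| ≤ M) : H →L[ℝ] H :=
  LinearMap.mkContinuous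
    { toFun := fun x => ⟨fun n => m n * x (σ n), wop_mem m σ hσ M hM x⟩
      map_add' := fun x y => by
        refine lp.ext (funext fun n => ?_)
        change m n * (x + y : H) (σ n) = m n * x (σ n) + m n * y (σ n)
        rw [lp.coeFn_add, Pi.add_apply]; ring
      map_smul' := fun c x => by
        refine lp.ext (funext fun n => ?_)
        change m n * (c • x : H) (σ n) = c * (m n * x (σ n))
        rw [lp.coeFn_smul, Pi.smul_apply, smul_eq_mul]; ring }
    M (fun x => wop_norm m σ hσ M hM x)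

lemma wop_apply (m : ℕ → ℝ) (σ : ℕ → ℕ) (hσ : Function.Injective σ) (M : ℝ)
    (hM : ∀ n, |m n| ≤ M) (x : H) (n : ℕ) : wop m σ hσ M hM x n = m n * x (σ n) := rfl

/-! ### The example -/

/-- The weights `1, 2, 1, 2, ...`. -/
noncomputable def d (n : ℕ) : ℝ := if Even n then 1 else 2

/-- The swap of `2k` and `2k+1`. -/
def sw (n : ℕ) : ℕ := if Even n then n + 1 else n - 1

lemma sw_even {n : ℕ} (h : Even n) : sw n = n + 1 := by simp [sw, h]
lemma sw_odd {n : ℕ} (h : ¬ Even n) : sw n = n - 1 := by simp [sw, h]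

lemma even_sw {n : ℕ} : Even (sw n) ↔ ¬ Even n := by
  by_cases h : Even n
  · rw [sw_even h]
    simp [h, Nat.even_add_one]
  · rw [sw_odd h]
    simp only [h, not_false_eq_true, iff_true]
    rcases Nat.not_even_iff_odd.1 h with ⟨k, hk⟩
    exact ⟨k, by omega⟩

lemma sw_sw (n : ℕ) : sw (sw n) = n := by
  by_cases h : Even n
  · have h1 : ¬ Even (sw n) := by rw [even_sw]; simpa using h
    rw [sw_odd h1, sw_even h]; omega
  · have h1 : Even (sw n) := by rw [even_sw]; exact h
    rw [sw_even h1, sw_odd h]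
    rcases Nat.not_even_iff_odd.1 h with ⟨k, hk⟩
    omega

lemma sw_inj : Function.Injective sw := fun a b h => by
  rw [← sw_sw a, h, sw_sw]

lemma d_pos (n : ℕ) : 0 < d n := by unfold d; split_ifs <;> norm_num

lemma abs_d_le (n : ℕ) : |d n| ≤ 2 := by unfold d; split_ifs <;> norm_num
lemma abs_dinv_le (n : ℕ) : |(d n)⁻¹| ≤ 1 := by unfold d; split_ifs <;> norm_num
lemma abs_dd_le (n : ℕ) : |d n / d (sw n)| ≤ 2 := by
  unfold d; split_ifs <;> norm_num

/-- `D = diag(1,2,1,2,...)`. -/
noncomputable def D : H →L[ℝ] H := wop d id Function.injective_id 2 abs_d_le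
/-- `D⁻¹`. -/
noncomputable def Di : H →L[ℝ] H :=
  wop (fun n => (d n)⁻¹) id Function.injective_id 1 abs_dinv_le
/-- The swap operator `U`. -/
noncomputable def U : H →L[ℝ] H := wop (fun _ => 1) sw sw_inj 1 (fun _ => by norm_num)
/-- `T = D U D⁻¹`. -/
noncomputable def T : H →L[ℝ] H := wop (fun n => d n / d (sw n)) sw sw_inj 2 abs_dd_le
/-- The inverse of `T - U`. -/
noncomputable def S : H →L[ℝ] H :=
  wop (fun n => if Even n then 1 else -2) sw sw_inj 2 (fun n => by split_ifs <;> norm_num)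

lemma D_apply (x : H) (n : ℕ) : D x n = d n * x n := rfl
lemma Di_apply (x : H) (n : ℕ) : Di x n = (d n)⁻¹ * x n := rfl
lemma U_apply (x : H) (n : ℕ) : U x n = x (sw n) := by
  change 1 * x (sw n) = _; ring
lemma T_apply (x : H) (n : ℕ) : T x n = d n / d (sw n) * x (sw n) := rfl
lemma S_apply (x : H) (n : ℕ) : S x n = (if Even n then 1 else -2) * x (sw n) := rfl

lemma Di_D (x : H) : Di (D x) = x := by
  refine lp.ext (funext fun n => ?_)
  rw [Di_apply, D_apply]
  have := (d_pos n).ne'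
  field_simp

lemma T_D (x : H) : T (D x) = D (U x) := by
  refine lp.ext (funext fun n => ?_)
  rw [T_apply, D_apply, D_apply, U_apply]
  have := (d_pos (sw n)).ne'
  field_simp

lemma TU_apply (x : H) (n : ℕ) :
    (T - U) x n = (if Even n then -(1/2) else 1) * x (sw n) := by
  have : (T - U) x n = T x n - U x n := rfl
  rw [this, T_apply, U_apply]
  have h1 : d (sw n) = if Even n then 2 else 1 := by
    unfold d
    by_cases h : Even n
    · have : ¬ Even (sw n) := by rw [even_sw]; simpa using h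
      simp [h, this]
    · have : Even (sw n) := by rw [even_sw]; exact h
      simp [h, this]
  rw [h1]
  unfold d
  split_ifs <;> ring

lemma TU_S : (T - U) * S = 1 := by
  refine ContinuousLinearMap.ext (fun x => lp.ext (funext fun n => ?_))
  change (T - U) (S x) n = x n
  rw [TU_apply, S_apply, sw_sw]
  by_cases h : Even n
  · have : ¬ Even (sw n) := by rw [even_sw]; simpa using h
    simp [h, this]
  · have : Even (sw n) := by rw [even_sw]; exact h
    simp [h, this]

lemma S_TU : S * (T - U) = 1 := by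
  refine ContinuousLinearMap.ext (fun x => lp.ext (funext fun n => ?_))
  change S ((T - U) x) n = x n
  rw [S_apply, TU_apply, sw_sw]
  by_cases h : Even n
  · have : ¬ Even (sw n) := by rw [even_sw]; simpa using h
    simp [h, this]
  · have : Even (sw n) := by rw [even_sw]; exact h
    simp [h, this]

lemma isUnit_TU : IsUnit (T - U) := ⟨⟨T - U, S, TU_S, S_TU⟩, rfl⟩

lemma not_finiteDimensional : ¬ FiniteDimensional ℝ H := by
  intro h
  let n := Module.finrank ℝ H
  let f : H →ₗ[ℝ] (Fin (n + 1) → ℝ) :=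
    { toFun := fun w i => w i
      map_add' := fun x y => by funext i; simp
      map_smul' := fun c x => by funext i; simp }
  have hf : Function.Surjective f := by
    intro v
    refine ⟨∑ i : Fin (n + 1), lp.single 2 (i : ℕ) (v i), ?_⟩
    funext j
    change (∑ i : Fin (n + 1), lp.single 2 (i : ℕ) (v i) : H) (j : ℕ) = v j
    rw [lp.coeFn_sum, Finset.sum_apply, Finset.sum_eq_single j]
    · simp
    · intro b _ hb
      rw [lp.single_apply_ne]
      intro h; exact hb (Fin.ext h.symm)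
    · intro h; exact absurd (Finset.mem_univ _) h
  have h1 := LinearMap.finrank_le_finrank_of_injective (f := f.dualMap)
    (LinearMap.dualMap_injective_of_surjective hf)
  rw [Subspace.dual_finrank_eq, Subspace.dual_finrank_eq] at h1
  simp only [Module.finrank_fintype_fun_eq_card, Fintype.card_fin] at h1
  omega

lemma not_compact_TU : ¬ IsCompactOperator (T - U) := by
  intro h
  have h1 : IsCompactOperator (S ∘ ⇑(T - U)) := h.clm_comp S
  have h2 : (S ∘ ⇑(T - U) : H → H) = id := by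
    funext x
    exact congrArg (fun A : H →L[ℝ] H => A x) S_TU
  rw [h2] at h1
  exact not_finiteDimensional (isCompactOperator_id_iff_finiteDimensional.1 h1)

lemma norm_U (x : H) : ‖U x‖ = ‖x‖ := by
  refine le_antisymm ?_ ?_
  · have := wop_norm (fun _ => 1) sw sw_inj 1 (fun _ => by norm_num) x
    rw [one_mul] at this
    exact this
  · have h1 := wop_norm (fun _ => 1) sw sw_inj 1 (fun _ => by norm_num) (U x)
    have h2 : (⟨fun n => 1 * (U x) (sw n), wop_mem (fun _ => 1) sw sw_inj 1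
      (fun _ => by norm_num) (U x)⟩ : H) = x := by
      refine lp.ext (funext fun n => ?_)
      change 1 * (U x) (sw n) = x n
      rw [U_apply, sw_sw, one_mul]
    rw [h2, one_mul] at h1
    exact h1

lemma kp_U (x : H) (n : ℕ) : kp (U x) n = kp x (sw n) := by
  simp only [kp, norm_U, U_apply]

/-- The formal KP map is additive modulo `l_2`: any linear map vanishing on `l_2` composed with
`kp` is linear. -/
lemma exists_linear (G : (ℕ → ℝ) →ₗ[ℝ] H) (hG : ∀ x : H, G (fun n => x n) = 0) :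
    ∃ L : H →ₗ[ℝ] H, ∀ x, L x = G (kp x) := by
  refine ⟨{ toFun := fun x => G (kp x)
            map_add' := fun x y => ?_
            map_smul' := fun c x => ?_ }, fun x => rfl⟩
  · obtain ⟨z, hz, -⟩ := kp_add x y
    have h1 : G (kp (x + y) - kp x - kp y) = 0 := by
      have : kp (x + y) - kp x - kp y = fun n => z n := by funext n; simp [hz]
      rw [this]; exact hG z
    rw [map_sub, map_sub] at h1
    have := sub_eq_zero.1 (by rw [sub_sub] at h1; exact h1)
    exact this
  · rw [kp_smul, map_smul]; rfl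

lemma finite_support_mem (v : ℕ → ℝ) (h : {n | v n ≠ 0}.Finite) : ∃ z : H, ∀ n, z n = v n := by
  have : Memℓp v 2 := by
    refine Memℓp.of_exponent_ge (memℓp_zero h) (by norm_num)
  exact ⟨⟨v, this⟩, fun n => rfl⟩

theorem main : ∃ Φ : H → H, QuasiLinear Φ ∧ Singular Φ ∧ IsTwistedKaltonPeck Φ ∧
    IsCentralizer Φ ∧ HasNonCompactDifference Φ := by
  obtain ⟨P, hP⟩ := exists_pi
  -- the formula on finitely supported vectors
  have hform : ∀ x : H, {n | x n ≠ 0}.Finite → ∀ n, D (P (kp x)) n = d n * kp x n := by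
    intro x hx n
    have hf : {n | kp x n ≠ 0}.Finite := by
      refine hx.subset (fun n hn => ?_)
      intro h
      apply hn
      simp [kp, h]
    obtain ⟨z, hz⟩ := finite_support_mem _ hf
    rw [D_apply, P_of_eq hP hz, hz]
  have hnormD : ∀ v : H, ‖D v‖ ≤ 2 * ‖v‖ := fun v => wop_norm d id Function.injective_id 2
    abs_d_le v
  refine ⟨fun x => D (P (kp x)), ⟨fun c x => ?_, 12, fun x y => ?_⟩, ?_, ?_, ?_, T, U, ?_,
    isUnit_TU, not_compact_TU⟩
  · simp only [kp_smul, map_smul]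
  · rw [← map_sub, ← map_sub]
    refine (hnormD _).trans ?_
    have := quasi_P hP x y
    linarith
  · intro W _ hW ⟨L, C, hLC⟩
    refine singular_P hP W hW ((Di : H →ₗ[ℝ] H) ∘ₗ L) C (fun w => ?_)
    have h1 : P (kp w) - ((Di : H →ₗ[ℝ] H) ∘ₗ L) w = Di (D (P (kp w)) - L w) := by
      rw [map_sub, Di_D]; rfl
    rw [h1]
    have h2 : ‖Di (D (P (kp w)) - L w)‖ ≤ 1 * ‖D (P (kp w)) - L w‖ :=
      wop_norm (fun n => (d n)⁻¹) id Function.injective_id 1 abs_dinv_le _
    rw [one_mul] at h2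
    exact h2.trans (hLC w)
  · intro x hx n
    rw [hform x hx n]; rfl
  · -- centralizer
    refine ⟨4, fun a M ha x y z hx hy hz => ?_⟩
    have hM0 : 0 ≤ M := (abs_nonneg _).trans (ha 0)
    have hyf : {n | y n ≠ 0}.Finite := by
      refine hx.subset (fun n hn => ?_)
      intro h
      apply hn
      rw [hy, h, mul_zero]
    have hyn : ‖y‖ ≤ M * ‖x‖ := by
      have := wop_norm a id Function.injective_id M ha x
      have e : (⟨fun n => a n * x (id n), wop_mem a id Function.injective_id M ha x⟩ : H) = y := by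
        refine lp.ext (funext fun n => ?_)
        change a n * x n = y n
        rw [hy]
      rwa [e] at this
    by_cases hMx : M * ‖x‖ = 0
    · have hy0 : y = 0 := by
        rw [← norm_eq_zero]; exact le_antisymm (hyn.trans hMx.le) (norm_nonneg _)
      have hz0 : z = 0 := by
        refine lp.ext (funext fun n => ?_)
        rw [hz, hform x hx n]
        rcases mul_eq_zero.1 hMx with h | h
        · have : a n = 0 := by
            have := ha n; rw [h] at this
            simpa using le_antisymm this (abs_nonneg _)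
          rw [this]; simp
        · rw [norm_eq_zero] at h
          simp [kp, h]
      have hk0 : kp (0 : H) = 0 := by
        funext n; simp [kp]
      simp only [hy0, hz0, hk0, map_zero, sub_zero, norm_zero]
      positivity
    have hMxpos : 0 < M * ‖x‖ := lt_of_le_of_ne (by positivity) (Ne.symm hMx)
    have hMpos : 0 < M := by
      rcases hM0.eq_or_lt with h | h
      · exact absurd (by rw [← h, zero_mul]) hMx
      · exact h
    have hxpos : 0 < ‖x‖ := by
      rcases (norm_nonneg x).eq_or_lt with h | h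
      · exact absurd (by rw [← h, mul_zero]) hMx
      · exact h
    -- first correction: y * log (‖y‖ / (M ‖x‖))
    have h1 : ‖(log (‖y‖ / (M * ‖x‖))) • y‖ ≤ M * ‖x‖ := by
      rw [norm_smul, mul_comm]
      exact mul_abs_log_div_le (norm_nonneg _) hyn
    -- second correction
    obtain ⟨r, hr, hrn⟩ := exists_lp_of_le (fun n => a n * x n * log (|a n| / M)) (M • x)
      (fun n => by
        simp only [lp.coeFn_smul, Pi.smul_apply, smul_eq_mul]
        rw [abs_mul, abs_mul, abs_mul, abs_of_nonneg hM0]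
        have := mul_abs_log_div_le (abs_nonneg (a n)) (ha n)
        calc |a n| * |x n| * |log (|a n| / M)| = (|a n| * |log (|a n| / M)|) * |x n| := by ring
          _ ≤ M * |x n| := by gcongr)
    have hrn' : ‖r‖ ≤ M * ‖x‖ := by
      rw [norm_smul, Real.norm_eq_abs, abs_of_nonneg hM0] at hrn; exact hrn
    have hdiff : D (P (kp y)) - z = D ((log (‖y‖ / (M * ‖x‖))) • y - r) := by
      refine lp.ext (funext fun n => ?_)
      rw [lp.coeFn_sub, Pi.sub_apply, hz, hform x hx n, hform y hyf n, D_apply]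
      simp only [lp.coeFn_sub, lp.coeFn_smul, Pi.sub_apply, Pi.smul_apply, smul_eq_mul, hr, kp]
      rw [hy]
      by_cases hax : a n * x n = 0
      · rcases mul_eq_zero.1 hax with h | h <;> simp [h]
      · have ha0 : |a n| ≠ 0 := by
          intro h; apply hax; rw [abs_eq_zero] at h; rw [h, zero_mul]
        have hx0 : |x n| ≠ 0 := by
          intro h; apply hax; rw [abs_eq_zero] at h; rw [h, mul_zero]
        have hyn0 : ‖y‖ ≠ 0 := by
          intro h
          rw [norm_eq_zero] at h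
          apply hax
          rw [← hy, h]; rfl
        rw [abs_mul, log_div hyn0 (mul_ne_zero ha0 hx0), log_mul ha0 hx0,
          log_div hxpos.ne' hx0, log_div hyn0 hMx, log_mul hMpos.ne' hxpos.ne',
          log_div ha0 hMpos.ne']
        ring
    rw [hdiff]
    refine (hnormD _).trans ?_
    have h3 := norm_sub_le ((log (‖y‖ / (M * ‖x‖))) • y) r
    nlinarith
  · -- compatibility
    let G : (ℕ → ℝ) →ₗ[ℝ] H :=
      P ∘ₗ (LinearMap.funLeft ℝ ℝ sw) - (U : H →ₗ[ℝ] H) ∘ₗ P
    have hG : ∀ x : H, G (fun n => x n) = 0 := by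
      intro x
      change P (fun n => x (sw n)) - U (P (fun n => x n)) = 0
      rw [hP, P_of_eq hP (z := U x) (fun n => U_apply x n), sub_self]
    obtain ⟨L, hL⟩ := exists_linear G hG
    refine ⟨((D : H →ₗ[ℝ] H) ∘ₗ L) ∘ₗ (Submodule.subtype ⊤), 0, fun w => ?_⟩
    have e1 : kp (U (w : H)) = fun n => kp (w : H) (sw n) := by
      funext n; exact kp_U _ _
    have e2 : D (P (kp (U (w : H)))) - T (D (P (kp (w : H)))) = D (L (w : H)) := by
      rw [T_D, ← map_sub, hL, e1]; rfl
    have e3 : D (P (kp (U (w : H)))) - T (D (P (kp (w : H)))) -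
        (((D : H →ₗ[ℝ] H) ∘ₗ L) ∘ₗ (Submodule.subtype ⊤)) w = 0 := by
      rw [e2]; exact sub_self _
    rw [e3]; simp

end Pool.Agent.Work.MP_d3af15_an
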